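import Pool.Agent.Helper15.UH.Goals

/-!
# PACKET CONST of `MP_ba83fc_ag`
-/

namespace UnrCoh

namespace ConstPf

open Polynomial

/-- valuation ring of `ℂ` in which `3` and a given transcendental number are non-units -/
theorem exists_val (ζ : ℂ) (hζ : Transcendental ℚ ζ) :
    ∃ A : ValuationSubring ℂ, A.valuation 3 < 1 ∧ A.valuation ζ < 1 := by
  let f : ℤ[X] →+* ℂ := (Polynomial.aeval ζ : ℤ[X] →ₐ[ℤ] ℂ).toRingHom
  let S : Subring ℂ := f.range
  have h3 : (3 : ℂ) ∈ S := ⟨C 3, by
    change (Polynomial.aeval ζ) (C 3 : ℤ[X]) = 3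
    rw [aeval_C]; simp⟩
  have hz : ζ ∈ S := ⟨X, by simp [f]⟩
  let I : Ideal S := Ideal.span {(⟨3, h3⟩ : S), (⟨ζ, hz⟩ : S)}
  have hI : I ≠ ⊤ := by
    intro htop
    have h1 : (1 : S) ∈ I := by rw [htop]; exact Submodule.mem_top
    obtain ⟨a, b, hab⟩ := Ideal.mem_span_pair.mp h1
    obtain ⟨p, hp⟩ := a.2
    obtain ⟨q, hq⟩ := b.2
    have h2 : (a : ℂ) * 3 + (b : ℂ) * ζ = 1 := by
      have := congrArg (Subtype.val) hab
      simpa using this
    have hp' : Polynomial.aeval ζ p = (a : ℂ) := hp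
    have hq' : Polynomial.aeval ζ q = (b : ℂ) := hq
    have h4 : Polynomial.aeval ζ (p * C 3 + q * X - 1 : ℤ[X]) = 0 := by
      simp only [map_sub, map_add, map_mul, aeval_X, map_one, hp', hq', aeval_C]
      have h5 : (algebraMap ℤ ℂ) 3 = 3 := by simp
      rw [h5, h2, sub_self]
    have hζ' : Transcendental ℤ ζ := by
      intro halg
      apply hζ
      exact halg.extendScalars (algebraMap ℤ ℚ).injective_int
    have h6 : (p * C 3 + q * X - 1 : ℤ[X]) = 0 := by
      by_contra hne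
      exact hζ' ⟨_, hne, h4⟩
    have h7 := congrArg (fun r : ℤ[X] => r.coeff 0) h6
    simp only [coeff_sub, coeff_add, mul_coeff_zero, coeff_X_zero, mul_zero,
      add_zero, coeff_one_zero, coeff_zero, coeff_C_zero] at h7
    omega
  obtain ⟨A, -, hA⟩ := Ideal.image_subset_nonunits_valuationSubring I hI
  refine ⟨A, ?_, ?_⟩
  · rw [← A.mem_nonunits_iff]
    apply hA
    exact ⟨⟨3, h3⟩, Ideal.subset_span (by simp), rfl⟩
  · rw [← A.mem_nonunits_iff]
    apply hA
    exact ⟨⟨ζ, hz⟩, Ideal.subset_span (by simp), rfl⟩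

end ConstPf

/-- PACKET CONST. -/
theorem thm_CONST (hS : S_SEQ) : S_CONST := by
  intro ρ hρ i j hij
  obtain ⟨-, -, -, -, -, -, hinj, halg, hval⟩ := hS
  have hti : tt ρ i ^ 2 = kk i - ρ := csq_sq _
  have htj : tt ρ j ^ 2 = kk j - ρ := csq_sq _
  set a := tt ρ i with ha
  set b := tt ρ j with hb
  set z := a + b with hz
  set D := kk i - kk j with hD
  have hDne : D ≠ 0 := fun h => hij (hinj (sub_eq_zero.mp h))
  have hDalg : IsAlgebraic ℚ D := (halg i).sub (halg j)
  have hzD : z * (a - b) = D := by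
    rw [hz, hD]
    linear_combination hti - htj
  have hzne : z ≠ 0 := by
    intro h
    rw [h, zero_mul] at hzD
    exact hDne hzD.symm
  have hw : a - b = D / z := by
    rw [eq_div_iff hzne, mul_comm, hzD]
  have hai : a = (z + D / z) / 2 := by
    rw [← hw, hz]; ring
  have hbi : b = (z - D / z) / 2 := by
    rw [← hw, hz]; ring
  have h2alg : IsAlgebraic ℚ (2 : ℂ) := by
    have := isAlgebraic_algebraMap (R := ℚ) (A := ℂ) 2
    simpa using this
  have hztr : Transcendental ℚ z := by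
    intro hza
    apply hρ
    have h1 : IsAlgebraic ℚ a := by
      rw [hai, div_eq_mul_inv, div_eq_mul_inv]
      exact (hza.add (hDalg.mul hza.inv)).mul h2alg.inv
    have h2 : ρ = kk i - a ^ 2 := by rw [hti]; ring
    rw [h2]
    exact (halg i).sub (h1.pow 2)
  have hζ : Transcendental ℚ (z / D ^ 2) := by
    intro h
    apply hztr
    have h1 : z = z / D ^ 2 * D ^ 2 := by
      field_simp
    rw [h1]
    exact h.mul (hDalg.pow 2)
  obtain ⟨A, h3, hζA⟩ := ConstPf.exists_val _ hζ
  obtain ⟨h2, hk⟩ := hval A h3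
  have hki := (hk i).2.2
  have hkj := (hk j).2.2
  have hvD0 : A.valuation D ≠ 0 := (map_ne_zero _).mpr hDne
  have hvz0 : A.valuation z ≠ 0 := (map_ne_zero _).mpr hzne
  have hvD1 : A.valuation D ≤ 1 := by
    rw [hD]
    refine (Valuation.map_sub _ _ _).trans ?_
    rw [hki, hkj, max_self]
  have hvzlt : A.valuation z < A.valuation D ^ 2 := by
    have h1 : z = z / D ^ 2 * D ^ 2 := by
      field_simp
    rw [h1, map_mul, map_pow]
    exact mul_lt_of_lt_one_left (pow_pos (zero_lt_iff.mpr hvD0) 2) hζA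
  have hw1 : 1 < A.valuation (D / z) := by
    rw [map_div₀, one_lt_div₀ (zero_lt_iff.mpr hvz0)]
    refine lt_of_lt_of_le hvzlt ?_
    rw [pow_two]
    exact mul_le_of_le_one_left' hvD1
  have hz1 : A.valuation z < 1 :=
    lt_of_lt_of_le hvzlt (pow_le_one' hvD1 2)
  have hzw : A.valuation z < A.valuation (D / z) := hz1.trans hw1
  have hva : A.valuation a = A.valuation (D / z) := by
    rw [hai, map_div₀, h2, div_one]
    exact Valuation.map_add_eq_of_lt_right _ hzw
  have hvb : A.valuation b = A.valuation (D / z) := by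
    rw [hbi, map_div₀, h2, div_one]
    exact Valuation.map_sub_eq_of_lt_right _ hzw
  refine ⟨A, h3, ?_, ?_, ?_, ?_⟩
  · rw [hva]; exact hw1
  · rw [hva, hvb]
  · rw [hva, ← map_mul]
    have h1 : z * (D / z) = D := by field_simp
    rw [h1]
    exact hvD1
  · have h1 : ρ = kk i - a ^ 2 := by rw [hti]; ring
    rw [h1, Valuation.map_sub_swap, ← map_pow]
    apply Valuation.map_sub_eq_of_lt_left
    rw [hki, map_pow, hva]
    exact one_lt_pow₀ hw1 two_ne_zero

end UnrCoh
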