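import Pool.Agent.Helper15.UH.Goals

namespace UnrCoh

open Cardinal

namespace IndAux

theorem inj : Function.Injective (algebraMap (MvPolynomial (Fin 6) ℂ) E6) :=
  IsFractionRing.injective _ _

theorem vX_ne (i : Fin 6) : vX i ≠ 0 := by
  unfold vX
  intro h
  exact MvPolynomial.X_ne_zero i ((map_eq_zero_iff _ inj).1 h)

theorem xi_ne : vX 1 ^ 2 - 1 ≠ 0 := by
  unfold vX
  intro h
  have h2 : algebraMap (MvPolynomial (Fin 6) ℂ) E6 (MvPolynomial.X 1 ^ 2 - 1) = 0 := by
    rw [map_sub, map_pow, map_one]; exact h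
  have h3 := (map_eq_zero_iff _ inj).1 h2
  have h4 := congrArg (MvPolynomial.eval (fun _ => (0 : ℂ))) h3
  simp at h4

theorem ai : AlgebraicIndependent ℂ vX := by
  have h := (MvPolynomial.algebraicIndependent_X (Fin 6) ℂ).map'
    (f := IsScalarTower.toAlgHom ℂ (MvPolynomial (Fin 6) ℂ) E6) inj
  exact h

end IndAux

open IndAux

theorem thm_IND : S_IND := by
  intro ρ hρ
  let S := Algebra.adjoin ℂ (Set.range (zz ρ))
  let P : E6 → Prop := fun x => IsAlgebraic S x
  have Padd : ∀ {a b : E6}, P a → P b → P (a + b) := fun ha hb => IsAlgebraic.add ha hb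
  have Pmul : ∀ {a b : E6}, P a → P b → P (a * b) := fun ha hb => IsAlgebraic.mul ha hb
  have Psub : ∀ {a b : E6}, P a → P b → P (a - b) := fun ha hb => IsAlgebraic.sub ha hb
  have Pinv : ∀ {a : E6}, P a → P a⁻¹ := fun ha => IsAlgebraic.inv ha
  have Pdiv : ∀ {a b : E6}, P a → P b → P (a / b) := fun ha hb => by
    rw [div_eq_mul_inv]; exact Pmul ha (Pinv hb)
  have Ppow : ∀ {a : E6} (n : ℕ), P a → P (a ^ n) := fun n ha => IsAlgebraic.pow ha n
  have Psq : ∀ {a : E6}, P (a ^ 2) → P a := fun ha => IsAlgebraic.of_pow (by norm_num) ha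
  have Pc : ∀ c : ℂ, P (algebraMap ℂ E6 c) := fun c => by
    have h : algebraMap ℂ E6 c = algebraMap S E6 (algebraMap ℂ S c) := rfl
    show IsAlgebraic S _
    rw [h]
    exact isAlgebraic_algebraMap _
  have Pn : ∀ n : ℕ, P ((n : ℕ) : E6) := fun n => by
    have h := Pc (n : ℂ)
    rwa [map_natCast] at h
  have Pz : ∀ i, P (zz ρ i) := fun i => by
    have h : zz ρ i = algebraMap S E6 ⟨zz ρ i, Algebra.subset_adjoin ⟨i, rfl⟩⟩ := rfl
    show IsAlgebraic S _
    rw [h]
    exact isAlgebraic_algebraMap _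
  have P1 : P 1 := by simpa using Pn 1
  have P2 : P 2 := by simpa using Pn 2
  have P8 : P 8 := by simpa using Pn 8
  have P9 : P 9 := by simpa using Pn 9
  -- k
  have hk : P (ek ρ) := by
    have h := Pinv (Pz 0)
    simpa [zz] using h
  have h0 : P (vX 0) := by
    apply Psq
    have h : (vX 0) ^ 2 = ek ρ - algebraMap ℂ E6 ρ := by
      unfold ek et; ring
    rw [h]
    exact Psub hk (Pc ρ)
  have h2 : P (vX 2) := by
    have h := Pinv (Pz 1)
    simpa [zz, ey] using h
  have hex : P ex := by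
    have h := Pz 2
    simpa [zz] using h
  have hey : P ey := h2
  have heu : P eu := by
    have h := Pz 3
    simpa [zz] using h
  have her : P (er ρ) := by
    have h := Pz 4
    simpa [zz] using h
  have hes : P (es ρ) := by
    have h := Pz 5
    simpa [zz] using h
  have hxi := xi_ne
  have h1 : P (vX 1) := by
    apply Psq
    have hx1 : ex + 1 = 8 / (vX 1 ^ 2 - 1) := by
      unfold ex
      field_simp
      ring
    have hne : ex + 1 ≠ 0 := by
      rw [hx1]
      exact div_ne_zero (by norm_num) hxi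
    have h : (vX 1) ^ 2 = (ex + 9) / (ex + 1) := by
      rw [eq_div_iff hne]
      unfold ex
      field_simp
      ring
    rw [h]
    exact Pdiv (Padd hex P9) (Padd hex P1)
  have h3 : P (vX 3) := Psq heu
  have hff : P (ff ex ey (ek ρ)) := by
    unfold ff aa
    exact Pmul (Pmul hex (Pmul (Padd hex P1) (Padd hex P9)))
      (Pmul (Pmul hey (Psub hey P1)) (Psub hey (Ppow 2 hk)))
  have hhh : P (hh eu ρ) := by
    unfold hh
    exact Pmul (Psub heu P1) (Psub heu (Pc _))
  have h4 : P (vX 4) := by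
    have hv4 := vX_ne 4
    have hv3 := vX_ne 3
    have h : (vX 4 + vX 3 * er ρ) ^ 2 = ff ex ey (ek ρ) + (vX 3 * er ρ) ^ 2 := by
      unfold er
      field_simp
      ring
    have hp : P (vX 4 + vX 3 * er ρ) := by
      apply Psq
      rw [h]
      exact Padd hff (Ppow 2 (Pmul h3 her))
    have h' : vX 4 = (vX 4 + vX 3 * er ρ) - vX 3 * er ρ := by ring
    rw [h']
    exact Psub hp (Pmul h3 her)
  have hA : P (8 * vX 1 / (vX 1 ^ 2 - 1)) := Pdiv (Pmul P8 h1) (Psub (Ppow 2 h1) P1)
  have h5 : P (vX 5) := by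
    have hv5 := vX_ne 5
    have hv1 := vX_ne 1
    have hAne : (8 * vX 1 / (vX 1 ^ 2 - 1)) ≠ 0 :=
      div_ne_zero (mul_ne_zero (by norm_num) hv1) hxi
    have hes' : es ρ = (eu * hh eu ρ / vX 5 - vX 5) / (2 * (8 * vX 1 / (vX 1 ^ 2 - 1))) := rfl
    generalize (8 * vX 1 / (vX 1 ^ 2 - 1)) = A at hA hAne hes'
    have h : (vX 5 + A * es ρ) ^ 2 = eu * hh eu ρ + (A * es ρ) ^ 2 := by
      rw [hes']
      field_simp
      ring
    have hp : P (vX 5 + A * es ρ) := by
      apply Psq
      rw [h]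
      exact Padd (Pmul heu hhh) (Ppow 2 (Pmul hA hes))
    have h' : vX 5 = (vX 5 + A * es ρ) - A * es ρ := by ring
    rw [h']
    exact Psub hp (Pmul hA hes)
  have hX : ∀ i : Fin 6, P (vX i) := by
    intro i
    fin_cases i
    · exact h0
    · exact h1
    · exact h2
    · exact h3
    · exact h4
    · exact h5
  have hpoly : ∀ p : MvPolynomial (Fin 6) ℂ, P (algebraMap _ E6 p) := by
    intro p
    induction p using MvPolynomial.induction_on with
    | C a =>
      have h : algebraMap (MvPolynomial (Fin 6) ℂ) E6 (MvPolynomial.C a) = algebraMap ℂ E6 a := by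
        rw [IsScalarTower.algebraMap_apply ℂ (MvPolynomial (Fin 6) ℂ) E6]
        rfl
      rw [h]
      exact Pc a
    | add p q hp hq => rw [map_add]; exact Padd hp hq
    | mul_X p i hp => rw [map_mul]; exact Pmul hp (hX i)
  have hall : ∀ x : E6, P x := by
    intro x
    obtain ⟨p, q, _, rfl⟩ := IsFractionRing.div_surjective (A := MvPolynomial (Fin 6) ℂ) x
    exact Pdiv (hpoly p) (hpoly q)
  haveI : Algebra.IsAlgebraic (Algebra.adjoin ℂ (Set.range (zz ρ))) E6 := ⟨hall⟩
  have hle : #(Fin 6) ≤ Algebra.trdeg ℂ E6 := ai.cardinalMk_le_trdeg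
  exact (Algebra.IsAlgebraic.isTranscendenceBasis_of_le_trdeg_of_finite ℂ (zz ρ) hle).1

end UnrCoh
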