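import Pool.Agent.Helper15.UH.Goals

/-!
# PACKET KUM of `MP_ba83fc_ag`: Kummer characters
-/

namespace UnrCoh

namespace KumPf

section Sign

variable {K : Type*} [Field K]

/-- sign `(-1)^e` -/
def sg (K : Type*) [Field K] (e : ZMod 2) : K := if e = 0 then 1 else -1

theorem sg_zero : sg K 0 = 1 := by simp [sg]

theorem sg_one : sg K 1 = -1 := by simp [sg]

theorem zmod2_cases (e : ZMod 2) : e = 0 ∨ e = 1 := by
  revert e; decide

theorem sg_add (a b : ZMod 2) : sg K (a + b) = sg K a * sg K b := by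
  rcases zmod2_cases a with rfl | rfl <;> rcases zmod2_cases b with rfl | rfl
  · simp [sg]
  · simp [sg]
  · simp [sg]
  · have h : (1 : ZMod 2) + 1 = 0 := by decide
    rw [h]
    simp [sg]

theorem sg_sq (a : ZMod 2) : sg K a * sg K a = 1 := by
  rcases zmod2_cases a with rfl | rfl <;> simp [sg]

theorem sg_ne_zero (a : ZMod 2) : sg K a ≠ 0 := by
  rcases zmod2_cases a with rfl | rfl <;> simp [sg]

theorem sg_inj [CharZero K] {a b : ZMod 2} {g : K} (hg : g ≠ 0)
    (h : sg K a * g = sg K b * g) : a = b := by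
  have h1 : sg K a = sg K b := mul_right_cancel₀ hg h
  rcases zmod2_cases a with rfl | rfl <;> rcases zmod2_cases b with rfl | rfl
  · rfl
  · exfalso
    rw [sg_zero, sg_one] at h1
    have : (2 : K) = 0 := by linear_combination h1
    exact two_ne_zero this
  · exfalso
    rw [sg_zero, sg_one] at h1
    have : (2 : K) = 0 := by linear_combination -h1
    exact two_ne_zero this
  · rfl

theorem exists_sg {x y : K} (h : x ^ 2 = y ^ 2) : ∃ e : ZMod 2, x = sg K e * y := by
  rcases sq_eq_sq_iff_eq_or_eq_neg.mp h with h | h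
  · exact ⟨0, by rw [sg_zero, one_mul, h]⟩
  · exact ⟨1, by rw [sg_one, h]; ring⟩

end Sign

section Main

variable {L : Type} [Field L]

theorem map_sg (σ : Gal L) (e : ZMod 2) :
    σ (sg (AlgebraicClosure L) e) = sg (AlgebraicClosure L) e := by
  rcases zmod2_cases e with rfl | rfl
  · rw [sg_zero, map_one]
  · rw [sg_one, map_neg, map_one]

theorem loc_eval (z : AlgebraicClosure L) : IsLocallyConstant (fun σ : Gal L => σ z) := by
  rw [IsLocallyConstant.iff_exists_open]
  intro σ
  let E : IntermediateField L (AlgebraicClosure L) := IntermediateField.adjoin L {z}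
  have hint : IsIntegral L z := Algebra.IsIntegral.isIntegral z
  haveI : FiniteDimensional L E := IntermediateField.adjoin.finiteDimensional hint
  have hopen : IsOpen (E.fixingSubgroup : Set (Gal L)) := E.fixingSubgroup_isOpen
  refine ⟨(fun τ : Gal L => σ⁻¹ * τ) ⁻¹' (E.fixingSubgroup : Set (Gal L)), ?_, ?_, ?_⟩
  · exact hopen.preimage (continuous_const_mul σ⁻¹)
  · simp [E.fixingSubgroup.one_mem]
  · intro τ hτ
    have h1 : σ⁻¹ * τ ∈ E.fixingSubgroup := hτ
    have h2 := (IntermediateField.mem_fixingSubgroup_iff E (σ⁻¹ * τ)).mp h1 z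
      (IntermediateField.mem_adjoin_simple_self L z)
    have h3 : σ ((σ⁻¹ * τ) z) = σ z := by rw [h2]
    have h4 : σ ((σ⁻¹ * τ) z) = (σ * (σ⁻¹ * τ)) z := rfl
    rw [h4, mul_inv_cancel_left] at h3
    exact h3

theorem rt_ne_zero (b : Lˣ) : rt b ≠ 0 := by
  intro h
  have h1 := rt_sq b
  rw [h] at h1
  have h2 : algebraMap L (AlgebraicClosure L) b = 0 := by rw [← h1]; ring
  rw [map_eq_zero] at h2
  exact b.ne_zero h2

theorem loc_kum (b : Lˣ) : IsLocallyConstant (kum b) := by
  classical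
  have h := (loc_eval (rt b)).comp
    (fun w : AlgebraicClosure L => if w = rt b then (0 : ZMod 2) else 1)
  have h2 : ((fun w : AlgebraicClosure L => if w = rt b then (0 : ZMod 2) else 1) ∘
      (fun σ : Gal L => σ (rt b))) = kum b := by
    funext σ
    simp only [Function.comp, kum]
  rwa [h2] at h

variable [CharZero L]

instance : CharZero (AlgebraicClosure L) :=
  charZero_of_injective_algebraMap (algebraMap L (AlgebraicClosure L)).injective

theorem kum_spec (b : Lˣ) (σ : Gal L) :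
    σ (rt b) = sg (AlgebraicClosure L) (kum b σ) * rt b := by
  classical
  have h1 : (σ (rt b)) ^ 2 = (rt b) ^ 2 := by
    rw [← map_pow, rt_sq, AlgEquiv.commutes]
  unfold kum
  split_ifs with h
  · rw [sg_zero, one_mul, h]
  · rcases sq_eq_sq_iff_eq_or_eq_neg.mp h1 with h2 | h2
    · exact absurd h2 h
    · rw [sg_one, h2]; ring

theorem kum_unique (b : Lˣ) (σ : Gal L) (e : ZMod 2)
    (h : σ (rt b) = sg (AlgebraicClosure L) e * rt b) : kum b σ = e :=
  sg_inj (rt_ne_zero b) ((kum_spec b σ).symm.trans h)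

theorem kum_mul_gal (b : Lˣ) (σ τ : Gal L) : kum b (σ * τ) = kum b σ + kum b τ := by
  apply kum_unique
  have h1 : (σ * τ) (rt b) = σ (τ (rt b)) := rfl
  rw [h1, kum_spec b τ, map_mul, map_sg, kum_spec b σ, sg_add]
  ring

theorem kum_mul_unit (b c : Lˣ) (σ : Gal L) : kum (b * c) σ = kum b σ + kum c σ := by
  apply kum_unique
  have h0 : (rt (b * c)) ^ 2 = (rt b * rt c) ^ 2 := by
    rw [mul_pow, rt_sq, rt_sq, rt_sq, Units.val_mul, map_mul]
  obtain ⟨e, he⟩ := exists_sg h0
  rw [he, map_mul, map_sg, map_mul, kum_spec b, kum_spec c, sg_add]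
  ring

theorem norm_rel (b c : Lˣ) (p q : L) (hc : (c : L) = p ^ 2 - b * q ^ 2) :
    ∃ φ : Gal L → ZMod 2, IsLocallyConstant φ ∧
      ∀ σ τ : Gal L, kum b σ * kum c τ = φ σ + φ τ + φ (σ * τ) := by
  classical
  set ι := algebraMap L (AlgebraicClosure L) with hι
  set g0 : AlgebraicClosure L := ι p + ι q * rt b with hg0
  set g1 : AlgebraicClosure L := ι p - ι q * rt b with hg1
  have h01 : g0 * g1 = ι c := by
    rw [hg0, hg1, hc, map_sub, map_mul, map_pow, map_pow]
    have := rt_sq b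
    rw [← hι] at this
    linear_combination (-(ι q) ^ 2) * this
  have hcne : ι (c : L) ≠ 0 := by
    rw [Ne, map_eq_zero]
    exact c.ne_zero
  have hg0ne : g0 ≠ 0 := by
    intro h
    rw [h, zero_mul] at h01
    exact hcne h01.symm
  obtain ⟨g, hg⟩ := IsAlgClosed.exists_pow_nat_eq g0 two_pos
  have hgne : g ≠ 0 := by
    rintro rfl
    apply hg0ne
    rw [← hg]
    ring
  set g' : AlgebraicClosure L := rt c / g with hg'
  have hgg' : g * g' = rt c := by
    rw [hg']
    field_simp
  have hg'ne : g' ≠ 0 := by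
    intro h
    rw [h, mul_zero] at hgg'
    exact rt_ne_zero c hgg'.symm
  have hg'sq : g' ^ 2 = g1 := by
    have h1 : (g * g') ^ 2 = g0 * g1 := by rw [hgg', rt_sq, h01]
    have h2 : g0 * g' ^ 2 = g0 * g1 := by rw [← h1, mul_pow, hg]
    exact mul_left_cancel₀ hg0ne h2
  -- the function `G`
  let G : ZMod 2 → AlgebraicClosure L := fun e => if e = 0 then g else g'
  have hG0 : G 0 = g := by simp [G]
  have hG1 : G 1 = g' := by simp [G]
  have hGne : ∀ e, G e ≠ 0 := by
    intro e
    rcases zmod2_cases e with rfl | rfl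
    · rw [hG0]; exact hgne
    · rw [hG1]; exact hg'ne
  have hGG : ∀ e : ZMod 2, G e * G (e + 1) = rt c := by
    intro e
    rcases zmod2_cases e with rfl | rfl
    · rw [zero_add, hG0, hG1, hgg']
    · have h : (1 : ZMod 2) + 1 = 0 := by decide
      rw [h, hG0, hG1, mul_comm, hgg']
  have hσg : ∀ σ : Gal L, (σ g) ^ 2 = (G (kum b σ)) ^ 2 := by
    intro σ
    rw [← map_pow, hg, hg0, map_add, map_mul, hι, AlgEquiv.commutes, AlgEquiv.commutes,
      kum_spec b σ]
    rcases zmod2_cases (kum b σ) with h | h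
    · rw [h, hG0, hg, hg0, sg_zero, one_mul, hι]
    · rw [h, hG1, hg'sq, hg1, sg_one, hι]
      ring
  let φ0 : Gal L → ZMod 2 := fun σ => if σ g = G (kum b σ) then 0 else 1
  have hφ0 : ∀ σ, σ g = sg (AlgebraicClosure L) (φ0 σ) * G (kum b σ) := by
    intro σ
    by_cases h : σ g = G (kum b σ)
    · have : φ0 σ = 0 := by simp [φ0, h]
      rw [this, sg_zero, one_mul, h]
    · have : φ0 σ = 1 := by simp [φ0, h]
      rw [this, sg_one]
      rcases sq_eq_sq_iff_eq_or_eq_neg.mp (hσg σ) with h2 | h2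
      · exact absurd h2 h
      · rw [h2]; ring
  have hφ0u : ∀ σ e, σ g = sg (AlgebraicClosure L) e * G (kum b σ) → φ0 σ = e := by
    intro σ e h
    exact sg_inj (hGne _) ((hφ0 σ).symm.trans h)
  have hφ0lc : IsLocallyConstant φ0 := by
    have h1 := ((loc_eval g).prodMk (loc_kum b)).comp
      (fun w : AlgebraicClosure L × ZMod 2 => if w.1 = G w.2 then (0 : ZMod 2) else 1)
    exact h1
  -- action on `G e`
  have hact : ∀ (σ : Gal L) (e : ZMod 2), σ (G e) =
      sg (AlgebraicClosure L) (φ0 σ + e * kum c σ) * G (kum b σ + e) := by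
    intro σ e
    rcases zmod2_cases e with rfl | rfl
    · rw [hG0, hφ0 σ, zero_mul, add_zero, add_zero]
    · rw [hG1, one_mul]
      have h1 : σ g * σ g' = σ (rt c) := by rw [← map_mul, hgg']
      rw [hφ0 σ, kum_spec c σ, ← hGG (kum b σ)] at h1
      have h2 : sg (AlgebraicClosure L) (φ0 σ) * G (kum b σ) ≠ 0 :=
        mul_ne_zero (sg_ne_zero _) (hGne _)
      apply mul_left_cancel₀ h2
      rw [h1, sg_add]
      have h3 := sg_sq (K := AlgebraicClosure L) (φ0 σ)
      linear_combination (-(sg (AlgebraicClosure L) (kum c σ) *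
        (G (kum b σ) * G (kum b σ + 1)))) * h3
  have hmul : ∀ σ τ : Gal L, φ0 (σ * τ) = φ0 σ + φ0 τ + kum b τ * kum c σ := by
    intro σ τ
    apply hφ0u
    have h1 : (σ * τ) g = σ (τ g) := rfl
    rw [h1, hφ0 τ, map_mul, map_sg, hact, kum_mul_gal]
    rw [sg_add, sg_add, sg_add]
    ring
  refine ⟨fun σ => φ0 σ + kum b σ * kum c σ, ?_, ?_⟩
  · exact hφ0lc.add ((loc_kum b).mul (loc_kum c))
  · intro σ τ
    simp only
    rw [hmul, kum_mul_gal, kum_mul_gal]
    have h2 : (2 : ZMod 2) = 0 := by decide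
    linear_combination (-(φ0 σ + φ0 τ + kum b τ * kum c σ + kum b σ * kum c σ
      + kum b τ * kum c τ)) * h2

end Main

end KumPf

/-- PACKET KUM. -/
theorem thm_KUM : S_KUM := by
  intro L _ _
  exact ⟨KumPf.loc_kum, KumPf.kum_mul_gal, KumPf.kum_mul_unit, KumPf.norm_rel⟩

end UnrCoh
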